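import Mathlib

namespace Pool.Agent.H11.Ann

/-- The four-element group `{e, b, c, d}`. -/
inductive K | e | b | c | d
  deriving DecidableEq

namespace K

instance : Fintype K := ⟨{e, b, c, d}, fun x => by cases x <;> decide⟩

def mul : K → K → K
  | e, x => x
  | x, e => x
  | b, b => e
  | c, c => e
  | d, d => e
  | b, c => d
  | c, b => d
  | b, d => c
  | d, b => c
  | c, d => b
  | d, c => b

def sg : K → K
  | e => e
  | b => c
  | c => d
  | d => b

def ep : K → Bool
  | e => false
  | b => true
  | c => true
  | d => false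

def nw : K → ℕ
  | e => 0
  | b => 4
  | c => 3
  | d => 2

theorem mul_self (x : K) : mul x x = e := by cases x <;> rfl
theorem e_mul (x : K) : mul e x = x := by cases x <;> rfl
theorem mul_e (x : K) : mul x e = x := by cases x <;> rfl
theorem mul_comm' (x y : K) : mul x y = mul y x := by cases x <;> cases y <;> rfl
theorem mul_assoc' (x y z : K) : mul (mul x y) z = mul x (mul y z) := by
  cases x <;> cases y <;> cases z <;> rfl
theorem sg_mul (x y : K) : sg (mul x y) = mul (sg x) (sg y) := by cases x <;> cases y <;> rfl
theorem ep_mul (x y : K) : ep (mul x y) = (ep x).xor (ep y) := by cases x <;> cases y <;> rfl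
theorem nw_mul (x y : K) : nw (mul x y) ≤ nw x + nw y := by cases x <;> cases y <;> decide
theorem sg_surj (x : K) : ∃ y, sg y = x := by
  cases x
  · exact ⟨e, rfl⟩
  · exact ⟨d, rfl⟩
  · exact ⟨b, rfl⟩
  · exact ⟨c, rfl⟩

end K

open K

/-- Flip the last binary digit. -/
def fl (n : ℕ) : ℕ := if n % 2 = 0 then n + 1 else n - 1

theorem fl_even (m : ℕ) : fl (2 * m) = 2 * m + 1 := by unfold fl; rw [if_pos (by omega)]
theorem fl_odd (m : ℕ) : fl (2 * m + 1) = 2 * m := by unfold fl; rw [if_neg (by omega)]; omega
theorem fl_fl (n : ℕ) : fl (fl n) = n := by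
  unfold fl; split_ifs <;> omega
theorem fl_mod (n : ℕ) : (fl n) % 2 = (n + 1) % 2 := by
  unfold fl; split_ifs <;> omega

/-- The action of `K` on `ℕ` (finitary binary sequences). -/
def act (k : K) (n : ℕ) : ℕ :=
  if h : n = 0 then 0
  else if n % 2 = 0 then 2 * act (sg k) (n / 2)
  else 2 * (if ep k then fl (n / 2) else n / 2) + 1
termination_by n
decreasing_by omega

theorem act_zero (k : K) : act k 0 = 0 := by unfold act; simp

theorem act_even (k : K) (m : ℕ) : act k (2 * m) = 2 * act (sg k) m := by
  by_cases h : m = 0
  · subst h; simp [act_zero]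
  · rw [act, dif_neg (by omega), if_pos (by omega)]
    congr 2; omega

theorem act_odd (k : K) (m : ℕ) :
    act k (2 * m + 1) = 2 * (if ep k then fl m else m) + 1 := by
  rw [act, dif_neg (by omega), if_neg (by omega)]
  have : (2 * m + 1) / 2 = m := by omega
  rw [this]

theorem parity_cases (n : ℕ) : (∃ m, n = 2 * m) ∨ ∃ m, n = 2 * m + 1 := by
  rcases Nat.even_or_odd' n with ⟨m, h | h⟩
  · exact Or.inl ⟨m, h⟩
  · exact Or.inr ⟨m, h⟩

theorem act_mod (k : K) (n : ℕ) : (act k n) % 2 = n % 2 := by
  rcases parity_cases n with ⟨m, rfl | rfl⟩ | ⟨m, rfl | rfl⟩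
  · rw [act_even]; omega
  · rw [act_odd]; omega

theorem act_mul (k l : K) (n : ℕ) : act (mul k l) n = act k (act l n) := by
  induction n using Nat.strong_induction_on generalizing k l with
  | _ n ih =>
    rcases parity_cases n with ⟨m, rfl⟩ | ⟨m, rfl⟩
    · by_cases h : m = 0
      · subst h; simp [act_zero]
      · rw [act_even, act_even, act_even, sg_mul, ih m (by omega)]
    · rw [act_odd, act_odd, act_odd, ep_mul]
      cases ep k <;> cases ep l <;> simp [fl_fl]

theorem act_e (n : ℕ) : act e n = n := by
  induction n using Nat.strong_induction_on with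
  | _ n ih =>
    rcases parity_cases n with ⟨m, rfl⟩ | ⟨m, rfl⟩
    · by_cases h : m = 0
      · subst h; simp [act_zero]
      · rw [act_even]; change 2 * act e m = _; rw [ih m (by omega)]
    · rw [act_odd]; rfl

theorem act_act (k : K) (n : ℕ) : act k (act k n) = n := by
  rw [← act_mul, mul_self, act_e]

/-- The index of the first binary digit in which `p` and `q` differ (`0` if `p = q`). -/
def lvl (p q : ℕ) : ℕ :=
  if h : p = q then 0
  else if p % 2 = q % 2 then lvl (p / 2) (q / 2) + 1
  else 0
termination_by p + q
decreasing_by omega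

theorem lvl_self (p : ℕ) : lvl p p = 0 := by unfold lvl; simp

theorem lvl_ne_mod {p q : ℕ} (h : p % 2 ≠ q % 2) : lvl p q = 0 := by
  rw [lvl, dif_neg (by intro h'; exact h (by rw [h'])), if_neg h]

theorem lvl_even {p q : ℕ} (h : p ≠ q) : lvl (2 * p) (2 * q) = lvl p q + 1 := by
  rw [lvl, dif_neg (by omega), if_pos (by omega)]
  congr 2 <;> omega

theorem lvl_odd {p q : ℕ} (h : p ≠ q) : lvl (2 * p + 1) (2 * q + 1) = lvl p q + 1 := by
  rw [lvl, dif_neg (by omega), if_pos (by omega)]
  congr 2 <;> omega

theorem fl_inj {p q : ℕ} (h : fl p = fl q) : p = q := by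
  rw [← fl_fl p, h, fl_fl]

theorem act_inj {k : K} {p q : ℕ} (h : act k p = act k q) : p = q := by
  rw [← act_act k p, h, act_act]

theorem lvl_fl (p q : ℕ) : lvl (fl p) (fl q) = lvl p q := by
  by_cases hpq : p = q
  · rw [hpq, lvl_self, lvl_self]
  rcases parity_cases p with ⟨m, rfl⟩ | ⟨m, rfl⟩ <;>
  rcases parity_cases q with ⟨n, rfl⟩ | ⟨n, rfl⟩
  · rw [fl_even, fl_even, lvl_odd (by omega), lvl_even (by omega)]
  · rw [fl_even, fl_odd, lvl_ne_mod (by omega), lvl_ne_mod (by omega)]
  · rw [fl_even, fl_odd, lvl_ne_mod (by omega), lvl_ne_mod (by omega)]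
  · rw [fl_odd, fl_odd, lvl_odd (by omega), lvl_even (by omega)]

theorem lvl_act (k : K) (p q : ℕ) : lvl (act k p) (act k q) = lvl p q := by
  induction p using Nat.strong_induction_on generalizing k q with
  | _ p ih =>
    by_cases hpq : p = q
    · rw [hpq, lvl_self, lvl_self]
    have hne : act k p ≠ act k q := fun h => hpq (act_inj h)
    by_cases hmod : p % 2 = q % 2
    · rcases parity_cases p with ⟨m, rfl⟩ | ⟨m, rfl⟩ <;>
      rcases parity_cases q with ⟨n, rfl⟩ | ⟨n, rfl⟩
      · have hmn : m ≠ n := by omega
        have hmn' : act (sg k) m ≠ act (sg k) n := fun h => hmn (act_inj h)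
        rw [act_even, act_even, lvl_even hmn', lvl_even hmn]
        by_cases hm : m = 0
        · -- use symmetry via the other argument: do it directly
          subst hm
          rw [act_zero]
          have key : ∀ n : ℕ, ∀ k : K, lvl 0 (act k n) = lvl 0 n := by
            intro n
            induction n using Nat.strong_induction_on with
            | _ n ihn =>
              intro k
              by_cases h0 : n = 0
              · subst h0; rw [act_zero]
              rcases parity_cases n with ⟨r, rfl⟩ | ⟨r, rfl⟩
              · have hr : (0 : ℕ) ≠ r := by omega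
                have hr' : (0 : ℕ) ≠ act (sg k) r := by
                  intro h; apply hr; apply act_inj (k := sg k); rw [act_zero, ← h]
                rw [act_even]
                have e1 := lvl_even hr'
                have e2 := lvl_even hr
                rw [Nat.mul_zero] at e1 e2
                rw [e1, e2, ihn r (by omega)]
              · rw [act_odd, lvl_ne_mod (by omega), lvl_ne_mod (by omega)]
          rw [key]
        · rw [ih m (by omega)]
      · omega
      · omega
      · have hmn : m ≠ n := by omega
        rw [act_odd, act_odd, lvl_odd hmn]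
        cases ep k
        · simp only [Bool.false_eq_true, if_false]; rw [lvl_odd hmn]
        · simp only [if_true]
          rw [lvl_odd (fun h => hmn (fl_inj h)), lvl_fl]
    · rw [lvl_ne_mod hmod, lvl_ne_mod (by rw [act_mod, act_mod]; exact hmod)]

/-! ### Alternating sequences -/

/-- The sequence `T` visits `p, q, p, q` in this order for some `p ≠ q` of level `m`. -/
def Cross (m : ℕ) (T : List ℕ) : Prop :=
  ∃ p q, p ≠ q ∧ lvl p q = m ∧ List.Sublist [p, q, p, q] T

theorem Cross.mono {m : ℕ} {T T' : List ℕ} (h : List.Sublist T T') (hc : Cross m T) :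
    Cross m T' := by
  obtain ⟨p, q, h1, h2, h3⟩ := hc
  exact ⟨p, q, h1, h2, h3.trans h⟩

/-- Consecutive entries have different parity. -/
def Alt (T : List ℕ) : Prop := List.IsChain (fun x y => x % 2 ≠ y % 2) T

/-- Auxiliary finite set for counting. -/
def U : List ℕ → Finset ℕ
  | [] => ∅
  | [_] => ∅
  | x :: y :: T => if x ∈ y :: T then insert y (U (y :: T)) else U (y :: T)

theorem mem_U {z : ℕ} : ∀ {T : List ℕ}, Alt T → z ∈ U T →
    ∃ x, x % 2 ≠ z % 2 ∧ List.Sublist [x, z, x] T
  | [], _, h => by simp [U] at h
  | [_], _, h => by simp [U] at h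
  | x :: y :: T, hT, h => by
    have hxy : x % 2 ≠ y % 2 := (List.isChain_cons_cons.1 hT).1
    have hT' : Alt (y :: T) := (List.isChain_cons_cons.1 hT).2
    have tail : z ∈ U (y :: T) → ∃ x', x' % 2 ≠ z % 2 ∧ List.Sublist [x', z, x'] (x :: y :: T) := by
      intro h
      obtain ⟨x', h1, h2⟩ := mem_U hT' h
      exact ⟨x', h1, h2.cons x⟩
    rw [U] at h
    split_ifs at h with hx
    · rw [Finset.mem_insert] at h
      rcases h with rfl | h
      · refine ⟨x, hxy, ?_⟩
        have hx' : x ∈ T := by
          rcases List.mem_cons.1 hx with h1 | h1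
          · exact absurd (by rw [h1]) hxy
          · exact h1
        exact ((List.singleton_sublist.2 hx').cons_cons z).cons_cons x
      · exact tail h
    · exact tail h

theorem length_eq : ∀ {T : List ℕ}, Alt T → ¬ Cross 0 T →
    T.length = T.toFinset.card + (U T).card
  | [], _, _ => by simp [U]
  | [x], _, _ => by simp [U]
  | x :: y :: T, hT, hc => by
    have hT' : Alt (y :: T) := (List.isChain_cons_cons.1 hT).2
    have hc' : ¬ Cross 0 (y :: T) := fun h => hc (h.mono (List.sublist_cons_self _ _))
    have ih := length_eq hT' hc'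
    have hy : y ∉ U (y :: T) := by
      intro hy
      obtain ⟨x', h1, h2⟩ := mem_U hT' hy
      apply hc'
      refine ⟨y, x', fun h => h1 (by rw [h]), lvl_ne_mod (Ne.symm h1), ?_⟩
      apply List.Sublist.cons_cons
      cases h2 with
      | cons _ h => exact h
      | cons_cons _ _ => exact absurd rfl h1
    rw [U, List.length_cons, ih, List.toFinset_cons (a := x)]
    split_ifs with hx
    · rw [Finset.card_insert_of_notMem hy, Finset.insert_eq_of_mem (by simpa using hx)]
      omega
    · rw [Finset.card_insert_of_notMem (by simpa using hx)]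
      omega

theorem length_le {T : List ℕ} (hT : Alt T) (hc : ¬ Cross 0 T) :
    T.length ≤ 2 * T.toFinset.card := by
  have h1 := length_eq hT hc
  have h2 : U T ⊆ T.toFinset := by
    intro z hz
    obtain ⟨x, _, h⟩ := mem_U hT hz
    rw [List.mem_toFinset]
    exact h.subset (by simp)
  have := Finset.card_le_card h2
  omega

/-! ### Words -/

/-- Positions visited by the word `k₀ a k₁ a ⋯ k_{n-1} a`. -/
def pos : List K → List ℕ
  | [] => [0]
  | k :: l => 0 :: (pos l).map (fun p => act k (fl p))

/-- The permutation given by the word `k₀ a k₁ a ⋯ k_{n-1} a`. -/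
def el : List K → ℕ → ℕ
  | [], n => n
  | k :: l, n => act k (fl (el l n))

/-- weight -/
def wt : List K → ℕ
  | [] => 0
  | k :: l => nw k + 3 + wt l

/-- Multiply the word `(l, t)` by `κ` on the left. -/
def mulK (κ : K) : List K × K → List K × K
  | ([], t) => ([], mul κ t)
  | (k :: l, t) => (mul κ k :: l, t)

/-- Multiply the word `(l, t)` by `a` on the left. -/
def mulA (w : List K × K) : List K × K := (e :: w.1, w.2)

/-- The two sections of a word. -/
def sec : List K → (List K × K) × (List K × K)
  | [] => (([], e), ([], e))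
  | k :: l => (if ep k then mulA (sec l).2 else (sec l).2, mulK (sg k) (sec l).1)

theorem pos_mulK (κ : K) (w : List K × K) : pos (mulK κ w).1 = (pos w.1).map (act κ) := by
  rcases w with ⟨_ | ⟨k, l⟩, t⟩
  · simp [mulK, pos, act_zero]
  · simp only [mulK, pos, List.map_cons, act_zero, List.map_map]
    congr 1
    apply List.map_congr_left
    intro p _
    simp [act_mul]

theorem pos_mulA (w : List K × K) : pos (mulA w).1 = 0 :: (pos w.1).map fl := by
  simp only [mulA, pos]
  congr 1
  apply List.map_congr_left
  intro p _
  exact act_e _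

theorem pos_eq (l : List K) : pos l = 0 :: (pos l).tail := by
  cases l <;> simp [pos]

theorem length_pos (l : List K) : (pos l).length = l.length + 1 := by
  induction l with
  | nil => rfl
  | cons k l ih => simp [pos, ih]

/-- evaluation of a word with a trailing letter -/
def elW (w : List K × K) (n : ℕ) : ℕ := el w.1 (act w.2 n)

theorem elW_mulK (κ : K) (w : List K × K) (n : ℕ) : elW (mulK κ w) n = act κ (elW w n) := by
  rcases w with ⟨_ | ⟨k, l⟩, t⟩
  · simp [elW, mulK, el, act_mul]
  · simp [elW, mulK, el, act_mul]

theorem elW_mulA (w : List K × K) (n : ℕ) : elW (mulA w) n = fl (elW w n) := by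
  simp [elW, mulA, el, act_e]

theorem el_sec (l : List K) (n : ℕ) :
    el l n = if (n + l.length) % 2 = 0 then 2 * elW (sec l).2 (n / 2)
      else 2 * elW (sec l).1 (n / 2) + 1 := by
  induction l with
  | nil =>
    simp only [el, sec, elW, act_e, List.length_nil, Nat.add_zero]
    split_ifs <;> omega
  | cons k l ih =>
    rw [el, ih, List.length_cons]
    by_cases h : (n + l.length) % 2 = 0
    · rw [if_pos h, if_neg (by omega), fl_even, act_odd]
      simp only [sec]
      cases ep k
      · simp
      · simp [elW_mulA]
    · rw [if_neg h, if_pos (by omega), fl_odd, act_even]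
      simp only [sec, elW_mulK]

theorem wt_mulK (κ : K) (w : List K × K) :
    wt (mulK κ w).1 + nw (mulK κ w).2 ≤ wt w.1 + nw w.2 + nw κ := by
  rcases w with ⟨_ | ⟨k, l⟩, t⟩
  · simp only [mulK, wt]; have := nw_mul κ t; omega
  · simp only [mulK, wt]; have := nw_mul κ k; omega

theorem wt_sec (l : List K) :
    7 * (wt (sec l).1.1 + nw (sec l).1.2 + (wt (sec l).2.1 + nw (sec l).2.2)) ≤ 6 * wt l := by
  induction l with
  | nil => simp [sec, wt, nw]
  | cons k l ih =>
    simp only [sec, wt]
    have h := wt_mulK (sg k) (sec l).1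
    cases k
    · simp only [ep, sg, nw] at *; simp only [Bool.false_eq_true, if_false]; omega
    · simp only [ep, sg, nw, mulA, if_true, wt] at *; omega
    · simp only [ep, sg, nw, mulA, if_true, wt] at *; omega
    · simp only [ep, sg, nw] at *; simp only [Bool.false_eq_true, if_false]; omega

theorem le_wt (l : List K) : 3 * l.length ≤ wt l := by
  induction l with
  | nil => simp
  | cons k l ih => simp only [wt, List.length_cons]; omega

theorem wt_le (l : List K) : wt l ≤ 7 * l.length := by
  induction l with
  | nil => simp [wt]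
  | cons k l ih =>
    simp only [wt, List.length_cons]
    have : nw k ≤ 4 := by cases k <;> decide
    omega

/-- Positions of `l` descend to positions of its sections. -/
theorem mem_pos_sec (l : List K) :
    (∀ m, 2 * m ∈ pos l → m ∈ pos (sec l).2.1) ∧
      (∀ m, 2 * m + 1 ∈ pos l → m ∈ pos (sec l).1.1) := by
  induction l with
  | nil =>
    constructor
    · intro m hm
      simp only [pos, sec, List.mem_singleton] at *
      omega
    · intro m hm
      simp only [pos, List.mem_singleton] at hm
      omega
  | cons k l ih =>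
    constructor
    · intro m hm
      simp only [sec]
      rw [pos_mulK]
      rw [pos, List.mem_cons] at hm
      rcases hm with hm | hm
      · have : m = 0 := by omega
        subst this
        rw [List.mem_map]
        exact ⟨0, by rw [pos_eq]; simp, act_zero _⟩
      · rw [List.mem_map] at hm ⊢
        obtain ⟨p, hp, hpm⟩ := hm
        rcases parity_cases p with ⟨r, rfl⟩ | ⟨r, rfl⟩
        · rw [fl_even, act_odd] at hpm; omega
        · rw [fl_odd, act_even] at hpm
          exact ⟨r, ih.2 r hp, by omega⟩
    · intro m hm
      simp only [sec]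
      rw [pos, List.mem_cons] at hm
      rcases hm with hm | hm
      · omega
      · rw [List.mem_map] at hm
        obtain ⟨p, hp, hpm⟩ := hm
        rcases parity_cases p with ⟨r, rfl⟩ | ⟨r, rfl⟩
        · rw [fl_even, act_odd] at hpm
          have hr := ih.1 r hp
          cases hk : ep k
          · rw [hk] at hpm
            simp only [Bool.false_eq_true, if_false] at hpm ⊢
            have : m = r := by omega
            rw [this]; exact hr
          · rw [hk] at hpm
            simp only [if_true] at hpm ⊢
            rw [pos_mulA]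
            apply List.mem_cons_of_mem
            rw [List.mem_map]
            exact ⟨r, hr, by omega⟩
        · rw [fl_odd, act_even] at hpm; omega

/-- Conversely visits of the sections (after time `0`) are visits of `l`, in the same order. -/
theorem sublist_sec (l : List K) :
    List.Sublist ((pos (sec l).2.1).tail.map (fun m => 2 * m)) (pos l).tail ∧
      List.Sublist ((pos (sec l).1.1).tail.map (fun m => 2 * m + 1)) (pos l).tail := by
  induction l with
  | nil => simp [sec, pos]
  | cons k l ih =>
    have hpos : (pos (k :: l)).tail = (pos l).map (fun p => act k (fl p)) := rfl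
    rw [hpos]
    have full : List.Sublist ((pos (sec l).2.1).map (fun m => 2 * m)) (pos l) := by
      rw [pos_eq (sec l).2.1, pos_eq l]
      simp only [List.map_cons, Nat.mul_zero]
      exact ih.1.cons_cons 0
    constructor
    · simp only [sec]
      rw [pos_mulK, ← List.map_tail, List.map_map]
      have h1 : (pos (sec l).1.1).tail.map ((fun m => 2 * m) ∘ act (sg k)) =
          ((pos (sec l).1.1).tail.map (fun m => 2 * m + 1)).map (fun p => act k (fl p)) := by
        rw [List.map_map]
        apply List.map_congr_left
        intro m _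
        simp [fl_odd, act_even]
      rw [h1]
      exact (ih.2.trans (List.tail_sublist _)).map _
    · simp only [sec]
      cases hk : ep k
      · simp only [Bool.false_eq_true, if_false]
        have h1 : (pos (sec l).2.1).tail.map (fun m => 2 * m + 1) =
            ((pos (sec l).2.1).tail.map (fun m => 2 * m)).map (fun p => act k (fl p)) := by
          rw [List.map_map]
          apply List.map_congr_left
          intro m _
          simp [fl_even, act_odd, hk]
        rw [h1]
        exact (((List.tail_sublist _).map _).trans full).map _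
      · simp only [if_true]
        rw [pos_mulA, List.tail_cons, List.map_map]
        have h1 : (pos (sec l).2.1).map ((fun m => 2 * m + 1) ∘ fl) =
            ((pos (sec l).2.1).map (fun m => 2 * m)).map (fun p => act k (fl p)) := by
          rw [List.map_map]
          apply List.map_congr_left
          intro m _
          simp [fl_even, act_odd, hk]
        rw [h1]
        exact full.map _

theorem cross_even {m : ℕ} {T : List ℕ} (h : Cross m T) : Cross (m + 1) (T.map (fun m => 2 * m)) := by
  obtain ⟨p, q, h1, h2, h3⟩ := h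
  exact ⟨2 * p, 2 * q, by omega, by rw [lvl_even h1, h2], h3.map (fun m => 2 * m)⟩

theorem cross_odd {m : ℕ} {T : List ℕ} (h : Cross m T) :
    Cross (m + 1) (T.map (fun m => 2 * m + 1)) := by
  obtain ⟨p, q, h1, h2, h3⟩ := h
  exact ⟨2 * p + 1, 2 * q + 1, by omega, by rw [lvl_odd h1, h2], h3.map (fun m => 2 * m + 1)⟩

theorem not_cross_sec {m : ℕ} {l : List K} (h : ¬ Cross (m + 1) (pos l).tail) :
    ¬ Cross m (pos (sec l).2.1).tail ∧ ¬ Cross m (pos (sec l).1.1).tail :=
  ⟨fun hc => h ((cross_even hc).mono (sublist_sec l).1),
    fun hc => h ((cross_odd hc).mono (sublist_sec l).2)⟩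

theorem alt_pos (l : List K) : Alt (pos l) := by
  induction l with
  | nil => simp [pos, Alt]
  | cons k l ih =>
    rw [pos_eq l] at ih
    rw [pos, pos_eq l]
    unfold Alt at *
    simp only [List.map_cons]
    rw [List.isChain_cons_cons]
    constructor
    · rw [act_mod, fl_mod]; omega
    · rw [← List.map_cons (f := fun p => act k (fl p))]
      rw [List.isChain_map]
      refine ih.imp ?_
      intro x y hxy
      rw [act_mod, act_mod, fl_mod, fl_mod]
      omega

theorem card_sec (l : List K) :
    (pos l).toFinset.card ≤ (pos (sec l).1.1).toFinset.card + (pos (sec l).2.1).toFinset.card := by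
  have h : (pos l).toFinset ⊆ (pos (sec l).1.1).toFinset.image (fun m => 2 * m + 1) ∪
      (pos (sec l).2.1).toFinset.image (fun m => 2 * m) := by
    intro p hp
    rw [List.mem_toFinset] at hp
    rw [Finset.mem_union, Finset.mem_image, Finset.mem_image]
    rcases parity_cases p with ⟨r, rfl⟩ | ⟨r, rfl⟩
    · exact Or.inr ⟨r, List.mem_toFinset.2 ((mem_pos_sec l).1 r hp), rfl⟩
    · exact Or.inl ⟨r, List.mem_toFinset.2 ((mem_pos_sec l).2 r hp), rfl⟩
  refine (Finset.card_le_card h).trans ((Finset.card_union_le _ _).trans ?_)
  exact Nat.add_le_add Finset.card_image_le Finset.card_image_le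

theorem card_bound (L : ℕ) : ∃ C, ∀ l : List K,
    3 * 7 ^ L * (pos l).toFinset.card ≤ 6 ^ L * wt l + C := by
  induction L with
  | zero =>
    refine ⟨3, fun l => ?_⟩
    have h1 := List.toFinset_card_le (pos l)
    have h2 := length_pos l
    have h3 := le_wt l
    simp only [pow_zero, Nat.mul_one, Nat.one_mul]
    omega
  | succ L ih =>
    obtain ⟨C, hC⟩ := ih
    refine ⟨14 * C, fun l => ?_⟩
    have h1 := card_sec l
    have h2 := hC (sec l).1.1
    have h3 := hC (sec l).2.1
    have h4 := wt_sec l
    calc 3 * 7 ^ (L + 1) * (pos l).toFinset.card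
        = 7 * (3 * 7 ^ L * (pos l).toFinset.card) := by ring
      _ ≤ 7 * (3 * 7 ^ L * ((pos (sec l).1.1).toFinset.card +
            (pos (sec l).2.1).toFinset.card)) :=
          Nat.mul_le_mul_left _ (Nat.mul_le_mul_left _ h1)
      _ = 7 * (3 * 7 ^ L * (pos (sec l).1.1).toFinset.card +
            3 * 7 ^ L * (pos (sec l).2.1).toFinset.card) := by ring
      _ ≤ 7 * ((6 ^ L * wt (sec l).1.1 + C) + (6 ^ L * wt (sec l).2.1 + C)) :=
          Nat.mul_le_mul_left _ (Nat.add_le_add h2 h3)
      _ = 6 ^ L * (7 * (wt (sec l).1.1 + wt (sec l).2.1)) + 14 * C := by ring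
      _ ≤ 6 ^ L * (6 * wt l) + 14 * C := by
          apply Nat.add_le_add_right
          apply Nat.mul_le_mul_left
          omega
      _ = 6 ^ (L + 1) * wt l + 14 * C := by ring

/-- Words whose positions do not cross at level `0` have bounded length. -/
theorem bounded_of_not_cross : ∃ N, ∀ l : List K, ¬ Cross 0 (pos l).tail → l.length ≤ N := by
  obtain ⟨C, hC⟩ := card_bound 11
  refine ⟨2 * C, fun l hl => ?_⟩
  have halt : Alt (pos l).tail := by
    have := alt_pos l
    rw [pos_eq l] at this
    exact this.tail
  have h1 := length_le halt hl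
  have h2 : (pos l).tail.toFinset.card ≤ (pos l).toFinset.card :=
    Finset.card_le_card (fun x hx => by
      rw [List.mem_toFinset] at *; exact List.mem_of_mem_tail hx)
  have h3 : (pos l).tail.length = l.length := by
    rw [List.length_tail, length_pos]; omega
  have h4 := hC l
  have h5 := wt_le l
  norm_num at h4
  omega

theorem finite_lists (N : ℕ) : {l : List K | l.length ≤ N}.Finite := List.finite_length_le K N

/-- For each level `m`, words whose positions do not cross at level `m` give finitely many
permutations and finitely many positions. -/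
theorem finite_not_cross (m : ℕ) : {f : ℕ → ℕ | ∃ l, ¬ Cross m (pos l).tail ∧ f = el l}.Finite ∧
    {p : ℕ | ∃ l, ¬ Cross m (pos l).tail ∧ p ∈ pos l}.Finite := by
  induction m with
  | zero =>
    obtain ⟨N, hN⟩ := bounded_of_not_cross
    constructor
    · refine ((finite_lists N).image el).subset ?_
      rintro f ⟨l, hl, rfl⟩
      exact ⟨l, hN l hl, rfl⟩
    · refine ((finite_lists N).biUnion (t := fun l => {p | p ∈ pos l})
        (fun l _ => List.finite_toSet (pos l))).subset ?_
      rintro p ⟨l, hl, hp⟩
      exact Set.mem_biUnion (x := l) (hN l hl) hp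
  | succ m ih =>
    obtain ⟨ih1, ih2⟩ := ih
    constructor
    · -- build the finite set of candidates
      have hfin : (((Set.univ : Set (Bool × K × K)) ×ˢ
          ({f : ℕ → ℕ | ∃ l, ¬ Cross m (pos l).tail ∧ f = el l} ×ˢ
          {f : ℕ → ℕ | ∃ l, ¬ Cross m (pos l).tail ∧ f = el l}))).Finite :=
        Set.Finite.prod Set.finite_univ (ih1.prod ih1)
      refine (hfin.image (fun x : (Bool × K × K) × ((ℕ → ℕ) × (ℕ → ℕ)) => fun n : ℕ =>
        if (n % 2 = 0) = x.1.1 then 2 * x.2.1 (act x.1.2.1 (n / 2))
        else 2 * x.2.2 (act x.1.2.2 (n / 2)) + 1)).subset ?_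
      rintro f ⟨l, hl, rfl⟩
      obtain ⟨h1, h0⟩ := not_cross_sec hl
      refine ⟨((decide (l.length % 2 = 0), (sec l).2.2, (sec l).1.2),
        (el (sec l).2.1, el (sec l).1.1)), ?_, ?_⟩
      · exact ⟨trivial, ⟨_, h1, rfl⟩, ⟨_, h0, rfl⟩⟩
      · funext n
        rw [el_sec]
        simp only [elW]
        by_cases hn : n % 2 = 0 <;> by_cases hl2 : l.length % 2 = 0
        · rw [if_pos (by simp [hn, hl2]), if_pos (by omega)]
        · rw [if_neg (by simp [hn, hl2]), if_neg (by omega)]
        · rw [if_neg (by simp [hn, hl2]), if_neg (by omega)]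
        · rw [if_pos (by simp [hn, hl2]), if_pos (by omega)]
    · refine ((ih2.image (fun m => 2 * m)).union (ih2.image (fun m => 2 * m + 1))).subset ?_
      rintro p ⟨l, hl, hp⟩
      obtain ⟨h1, h0⟩ := not_cross_sec hl
      rcases parity_cases p with ⟨r, rfl⟩ | ⟨r, rfl⟩
      · exact Or.inl ⟨r, ⟨_, h1, (mem_pos_sec l).1 r hp⟩, rfl⟩
      · exact Or.inr ⟨r, ⟨_, h0, (mem_pos_sec l).2 r hp⟩, rfl⟩

end Pool.Agent.H11.Ann
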