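import Mathlib
import Pool.Agent.H11.Ann1

namespace Pool.Agent.H11.Ann

open K

/-! ### The group -/

/-- Permutations of `ℕ` preserving `lvl`. -/
def Iso : Subgroup (Equiv.Perm ℕ) where
  carrier := {s | ∀ p q, lvl (s p) (s q) = lvl p q}
  mul_mem' := by
    intro a b ha hb p q
    change lvl (a (b p)) (a (b q)) = _
    rw [ha, hb]
  one_mem' := fun p q => rfl
  inv_mem' := by
    intro a ha p q
    have := ha (a⁻¹ p) (a⁻¹ q)
    simpa using this.symm

abbrev V := ℕ →₀ ZMod 2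

/-- value of the form on basis vectors -/
noncomputable def cc (p q : ℕ) : V := if p = q then 0 else Finsupp.single (lvl p q) 1

/-- the bilinear form -/
noncomputable def B : V →ₗ[ZMod 2] V →ₗ[ZMod 2] V :=
  Finsupp.linearCombination (ZMod 2) (fun p => Finsupp.linearCombination (ZMod 2) (fun q => cc p q))

theorem B_single (p q : ℕ) (x y : ZMod 2) :
    B (Finsupp.single p x) (Finsupp.single q y) = (x * y) • cc p q := by
  simp [B, Finsupp.linearCombination_single, smul_smul]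

/-- action on `V` -/
noncomputable def mp (s : Iso) : V →+ V := Finsupp.mapDomain.addMonoidHom (s : Equiv.Perm ℕ)

theorem mp_single (s : Iso) (p : ℕ) (x : ZMod 2) :
    mp s (Finsupp.single p x) = Finsupp.single ((s : Equiv.Perm ℕ) p) x := by
  simp [mp, Finsupp.mapDomain_single]

theorem mp_mul (s t : Iso) (v : V) : mp (s * t) v = mp s (mp t v) := by
  simp only [mp, Finsupp.mapDomain.addMonoidHom_apply]
  rw [← Finsupp.mapDomain_comp]
  rfl

theorem mp_one (v : V) : mp 1 v = v := by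
  simp only [mp, Finsupp.mapDomain.addMonoidHom_apply]
  exact Finsupp.mapDomain_id

theorem B_mp (s : Iso) (v w : V) : B (mp s v) (mp s w) = B v w := by
  induction v using Finsupp.induction_linear with
  | zero => simp
  | add f g hf hg => rw [map_add, map_add, LinearMap.add_apply, hf, hg, map_add,
      LinearMap.add_apply]
  | single p x =>
    induction w using Finsupp.induction_linear with
    | zero => simp
    | add f g hf hg => rw [map_add, map_add, hf, hg, map_add]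
    | single q y =>
      rw [mp_single, mp_single, B_single, B_single]
      congr 1
      unfold cc
      have : (s : Equiv.Perm ℕ) p = (s : Equiv.Perm ℕ) q ↔ p = q := (s : Equiv.Perm ℕ).injective.eq_iff
      simp only [this]
      rw [s.2 p q]

/-- The ambient group. -/
@[ext] structure Hs where
  v : V
  w : V
  z : V
  s : Iso

namespace Hs

noncomputable instance : Mul Hs := ⟨fun x y =>
  ⟨x.v + mp x.s y.v, x.w + mp x.s y.w, x.z + y.z + B x.v (mp x.s y.w), x.s * y.s⟩⟩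
instance : One Hs := ⟨⟨0, 0, 0, 1⟩⟩
noncomputable instance : Inv Hs := ⟨fun x =>
  ⟨-mp x.s⁻¹ x.v, -mp x.s⁻¹ x.w, -x.z + B x.v x.w, x.s⁻¹⟩⟩

theorem mul_v (x y : Hs) : (x * y).v = x.v + mp x.s y.v := rfl
theorem mul_w (x y : Hs) : (x * y).w = x.w + mp x.s y.w := rfl
theorem mul_z (x y : Hs) : (x * y).z = x.z + y.z + B x.v (mp x.s y.w) := rfl
theorem mul_s (x y : Hs) : (x * y).s = x.s * y.s := rfl
theorem one_v : (1 : Hs).v = 0 := rfl
theorem one_w : (1 : Hs).w = 0 := rfl
theorem one_z : (1 : Hs).z = 0 := rfl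
theorem one_s : (1 : Hs).s = 1 := rfl

noncomputable instance : Group Hs := Group.ofLeftAxioms
  (by
    intro x y z
    ext1
    · simp only [mul_v, mul_s, map_add, mp_mul, add_assoc]
    · simp only [mul_w, mul_s, map_add, mp_mul, add_assoc]
    · simp only [mul_z, mul_v, mul_w, mul_s, map_add, mp_mul, LinearMap.add_apply, B_mp]
      abel
    · simp only [mul_s, mul_assoc])
  (by
    intro x
    ext1
    · simp only [mul_v, one_v, one_s, mp_one, zero_add]
    · simp only [mul_w, one_w, one_s, mp_one, zero_add]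
    · simp only [mul_z, one_z, one_v, one_s, mp_one, zero_add, map_zero, LinearMap.zero_apply,
        add_zero]
    · simp only [mul_s, one_s, one_mul])
  (by
    intro x
    ext1
    · change -mp x.s⁻¹ x.v + mp x.s⁻¹ x.v = 0
      simp
    · change -mp x.s⁻¹ x.w + mp x.s⁻¹ x.w = 0
      simp
    · change (-x.z + B x.v x.w) + x.z + B (-mp x.s⁻¹ x.v) (mp x.s⁻¹ x.w) = 0
      rw [map_neg, LinearMap.neg_apply, B_mp]
      abel
    · change x.s⁻¹ * x.s = 1
      simp)

end Hs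

/-- the swap -/
def flP : Equiv.Perm ℕ := ⟨fl, fl, fl_fl, fl_fl⟩
def actP (k : K) : Equiv.Perm ℕ := ⟨act k, act k, act_act k, act_act k⟩
def flI : Iso := ⟨flP, lvl_fl⟩
def actI (k : K) : Iso := ⟨actP k, lvl_act k⟩

theorem flI_apply (n : ℕ) : (flI : Equiv.Perm ℕ) n = fl n := rfl
theorem actI_apply (k : K) (n : ℕ) : (actI k : Equiv.Perm ℕ) n = act k n := rfl

theorem actI_mul (k l : K) : actI (mul k l) = actI k * actI l := by
  apply Subtype.ext
  apply Equiv.ext
  intro n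
  exact act_mul k l n

theorem actI_e : actI e = 1 := by
  apply Subtype.ext
  apply Equiv.ext
  intro n
  exact act_e n

theorem flI_mul : flI * flI = 1 := by
  apply Subtype.ext
  apply Equiv.ext
  intro n
  exact fl_fl n

/-- elements of `M` -/
noncomputable def mel (m : K × ZMod 2 × ZMod 2) : Hs :=
  ⟨Finsupp.single 0 m.2.1, Finsupp.single 0 m.2.2, 0, actI m.1⟩

noncomputable def aE : Hs := ⟨0, 0, 0, flI⟩

/-- central elements -/
def zc (ζ : V) : Hs := ⟨0, 0, ζ, 1⟩

noncomputable def alp (p : ℕ) : Hs := ⟨Finsupp.single p 1, 0, 0, 1⟩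
noncomputable def bet (p : ℕ) : Hs := ⟨0, Finsupp.single p 1, 0, 1⟩

theorem mp_single_zero (k : K) (x : ZMod 2) :
    mp (actI k) (Finsupp.single 0 x) = Finsupp.single 0 x := by
  rw [mp_single, actI_apply, act_zero]

theorem mel_mul (m m' : K × ZMod 2 × ZMod 2) :
    mel m * mel m' = mel (mul m.1 m'.1, m.2.1 + m'.2.1, m.2.2 + m'.2.2) := by
  apply Hs.ext
  · simp only [mel, Hs.mul_v, mp_single_zero, Finsupp.single_add]
  · simp only [mel, Hs.mul_w, mp_single_zero, Finsupp.single_add]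
  · simp only [mel, Hs.mul_z, mp_single_zero, B_single]
    simp [cc]
  · simp only [mel, Hs.mul_s, actI_mul]

theorem mel_one : mel (e, 0, 0) = 1 := by
  apply Hs.ext
  · simp [mel, Hs.one_v]
  · simp [mel, Hs.one_w]
  · simp [mel, Hs.one_z]
  · simp [mel, Hs.one_s, actI_e]

theorem zmod2_add_self (x : ZMod 2) : x + x = 0 := by
  revert x; decide

theorem mel_mul_self (m : K × ZMod 2 × ZMod 2) : mel m * mel m = 1 := by
  rw [mel_mul, mul_self, zmod2_add_self, zmod2_add_self, mel_one]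

theorem aE_mul_self : aE * aE = 1 := by
  apply Hs.ext
  · simp [aE, Hs.mul_v, Hs.one_v]
  · simp [aE, Hs.mul_w, Hs.one_w]
  · simp [aE, Hs.mul_z, Hs.one_z]
  · simp [aE, Hs.mul_s, Hs.one_s, flI_mul]

theorem alp_zero : alp 0 = mel (e, 1, 0) := by
  apply Hs.ext <;> simp [alp, mel, actI_e]

theorem bet_zero : bet 0 = mel (e, 0, 1) := by
  apply Hs.ext <;> simp [bet, mel, actI_e]

theorem zc_add (x y : V) : zc x * zc y = zc (x + y) := by
  apply Hs.ext
  · simp [zc, Hs.mul_v]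
  · simp [zc, Hs.mul_w]
  · simp [zc, Hs.mul_z]
  · simp [zc, Hs.mul_s]

theorem zc_comm (x : V) (h : Hs) : zc x * h = h * zc x := by
  apply Hs.ext
  · simp [zc, Hs.mul_v, mp_one]
  · simp [zc, Hs.mul_w, mp_one]
  · simp [zc, Hs.mul_z, mp_one, add_comm]
  · simp [zc, Hs.mul_s]

theorem zc_zero : zc 0 = 1 := rfl

theorem V_add_self (x : V) : x + x = 0 := by
  ext n; simp [zmod2_add_self]

theorem mul_alp (h : Hs) :
    h * alp 0 = zc (B (Finsupp.single ((h.s : Equiv.Perm ℕ) 0) 1) h.w) *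
      alp ((h.s : Equiv.Perm ℕ) 0) * h := by
  apply Hs.ext
  · simp [zc, alp, Hs.mul_v, Hs.mul_s, mp_one, mp_single, add_comm]
  · simp [zc, alp, Hs.mul_w, Hs.mul_s, mp_one]
  · simp only [zc, alp, Hs.mul_z, Hs.mul_v, Hs.mul_s, map_zero, mp_one, add_zero, zero_add,
      one_mul]
    rw [add_right_comm, V_add_self, zero_add]
  · simp [zc, alp, Hs.mul_s]

theorem mul_bet (h : Hs) :
    h * bet 0 = zc (B h.v (Finsupp.single ((h.s : Equiv.Perm ℕ) 0) 1)) *
      bet ((h.s : Equiv.Perm ℕ) 0) * h := by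
  apply Hs.ext
  · simp [zc, bet, Hs.mul_v, Hs.mul_s, mp_one]
  · simp [zc, bet, Hs.mul_w, Hs.mul_s, mp_one, mp_single, add_comm]
  · simp only [zc, bet, Hs.mul_z, Hs.mul_v, Hs.mul_s, map_zero, mp_one, add_zero, zero_add,
      one_mul, LinearMap.zero_apply, mp_single]
    rw [add_comm]
  · simp [zc, bet, Hs.mul_s]

theorem alp_alp (p : ℕ) : alp p * alp p = 1 := by
  apply Hs.ext
  · simp only [alp, Hs.mul_v, mp_one, V_add_self, Hs.one_v]
  · simp [alp, Hs.mul_w, Hs.one_w]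
  · simp [alp, Hs.mul_z, Hs.one_z]
  · simp [alp, Hs.mul_s, Hs.one_s]

theorem bet_bet (p : ℕ) : bet p * bet p = 1 := by
  apply Hs.ext
  · simp [bet, Hs.mul_v, Hs.one_v]
  · simp only [bet, Hs.mul_w, mp_one, V_add_self, Hs.one_w]
  · simp [bet, Hs.mul_z, Hs.one_z]
  · simp [bet, Hs.mul_s, Hs.one_s]

theorem comm_eq (p q : ℕ) : alp p * bet q * alp p * bet q = zc (cc p q) := by
  apply Hs.ext
  · simp [alp, bet, zc, Hs.mul_v, Hs.mul_s, mp_one, V_add_self]
  · simp [alp, bet, zc, Hs.mul_w, Hs.mul_s, mp_one, V_add_self]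
  · simp [alp, bet, zc, Hs.mul_z, Hs.mul_v, Hs.mul_w, Hs.mul_s, mp_one, V_add_self, B_single]
  · simp [alp, bet, zc, Hs.mul_s]

/-! ### Generators and balls -/

/-- generators -/
def IsGen (x : Hs) : Prop := ∃ m m', x = mel m * aE * mel m'

theorem finite_gen : {x | IsGen x}.Finite := by
  have : {x | IsGen x} = Set.range (fun p : (K × ZMod 2 × ZMod 2) × (K × ZMod 2 × ZMod 2) =>
      mel p.1 * aE * mel p.2) := by
    ext x
    constructor
    · rintro ⟨m, m', rfl⟩; exact ⟨(m, m'), rfl⟩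
    · rintro ⟨⟨m, m'⟩, rfl⟩; exact ⟨m, m', rfl⟩
  rw [this]
  exact Set.finite_range _

theorem mel_inv (m : K × ZMod 2 × ZMod 2) : (mel m)⁻¹ = mel m :=
  inv_eq_of_mul_eq_one_left (mel_mul_self m)

theorem aE_inv : aE⁻¹ = aE := inv_eq_of_mul_eq_one_left aE_mul_self

theorem IsGen.inv {x : Hs} (h : IsGen x) : IsGen x⁻¹ := by
  obtain ⟨m, m', rfl⟩ := h
  exact ⟨m', m, by rw [mul_inv_rev, mul_inv_rev, mel_inv, mel_inv, aE_inv, mul_assoc]⟩

/-- products of `n` generators -/
def Sn (n : ℕ) (y : Hs) : Prop := ∃ l : List Hs, l.length = n ∧ (∀ x ∈ l, IsGen x) ∧ l.prod = y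

theorem Sn.mul {m n : ℕ} {x y : Hs} (hx : Sn m x) (hy : Sn n y) : Sn (m + n) (x * y) := by
  obtain ⟨l, h1, h2, h3⟩ := hx
  obtain ⟨l', h1', h2', h3'⟩ := hy
  refine ⟨l ++ l', by simp [h1, h1'], ?_, by simp [h3, h3']⟩
  intro z hz
  rcases List.mem_append.1 hz with h | h
  · exact h2 z h
  · exact h2' z h

theorem Sn.mel_mul {n : ℕ} (hn : n ≠ 0) {y : Hs} (hy : Sn n y) (m : K × ZMod 2 × ZMod 2) :
    Sn n (mel m * y) := by
  obtain ⟨l, h1, h2, h3⟩ := hy
  cases l with
  | nil => exact absurd h1.symm hn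
  | cons x l =>
    obtain ⟨m1, m2, hx⟩ := h2 x (by simp)
    refine ⟨(mel m * x) :: l, by simpa using h1, ?_, ?_⟩
    · intro z hz
      rcases List.mem_cons.1 hz with rfl | h
      · exact ⟨_, m2, by rw [hx, ← mul_assoc, ← mul_assoc, Ann.mel_mul]⟩
      · exact h2 z (by simp [h])
    · rw [List.prod_cons, mul_assoc, ← h3, List.prod_cons]

theorem Sn.mul_mel {n : ℕ} (hn : n ≠ 0) {y : Hs} (hy : Sn n y) (m : K × ZMod 2 × ZMod 2) :
    Sn n (y * mel m) := by
  obtain ⟨l, h1, h2, h3⟩ := hy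
  rcases List.eq_nil_or_concat l with rfl | ⟨l', x, rfl⟩
  · exact absurd h1.symm hn
  · rw [List.concat_eq_append] at *
    obtain ⟨m1, m2, hx⟩ := h2 x (by simp)
    refine ⟨l' ++ [x * mel m], by simpa using h1, ?_, ?_⟩
    · intro z hz
      rcases List.mem_append.1 hz with h | h
      · exact h2 z (by simp [h])
      · rw [List.mem_singleton.1 h]
        exact ⟨m1, _, by rw [hx, mul_assoc, Ann.mel_mul]⟩
    · rw [← h3]; simp [mul_assoc]

theorem insert_lemma {n0 n1 n2 n3 n4 : ℕ} {h0 h1 h2 h3 h4 : Hs} (H0 : Sn n0 h0) (H1 : Sn n1 h1)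
    (H2 : Sn n2 h2) (H3 : Sn n3 h3) (H4 : Sn n4 h4) (hn1 : n1 ≠ 0) (hn2 : n2 ≠ 0) (hn3 : n3 ≠ 0)
    {p q : ℕ} (e0 : (h0.s : Equiv.Perm ℕ) 0 = p) (e1 : ((h0 * h1).s : Equiv.Perm ℕ) 0 = q)
    (e2 : ((h0 * h1 * h2).s : Equiv.Perm ℕ) 0 = p)
    (e3 : ((h0 * h1 * h2 * h3).s : Equiv.Perm ℕ) 0 = q) :
    ∃ x x' : V, Sn (n0 + n1 + n2 + n3 + n4) (zc x * (h0 * h1 * h2 * h3 * h4)) ∧
      Sn (n0 + n1 + n2 + n3 + n4) (zc x' * (h0 * h1 * h2 * h3 * h4)) ∧
      Sn (n0 + n1 + n2 + n3 + n4) (zc (x + x' + cc p q) * (h0 * h1 * h2 * h3 * h4)) := by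
  obtain ⟨c0, k0⟩ : ∃ c, h0 * alp 0 = zc c * alp p * h0 := ⟨_, by rw [← e0]; exact mul_alp _⟩
  obtain ⟨c1, k1⟩ : ∃ c, h0 * h1 * bet 0 = zc c * bet q * (h0 * h1) :=
    ⟨_, by rw [← e1]; exact mul_bet _⟩
  obtain ⟨c2, k2⟩ : ∃ c, h0 * h1 * h2 * alp 0 = zc c * alp p * (h0 * h1 * h2) :=
    ⟨_, by rw [← e2]; exact mul_alp _⟩
  obtain ⟨c3, k3⟩ : ∃ c, h0 * h1 * h2 * h3 * bet 0 = zc c * bet q * (h0 * h1 * h2 * h3) :=
    ⟨_, by rw [← e3]; exact mul_bet _⟩
  have A1 : Sn n1 (alp 0 * h1) := by rw [alp_zero]; exact H1.mel_mul hn1 _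
  have B2 : Sn n2 (bet 0 * h2) := by rw [bet_zero]; exact H2.mel_mul hn2 _
  have A3 : Sn n3 (alp 0 * h3) := by rw [alp_zero]; exact H3.mel_mul hn3 _
  have B3 : Sn n3 (h3 * bet 0) := by rw [bet_zero]; exact H3.mul_mel hn3 _
  have AB3 : Sn n3 (alp 0 * h3 * bet 0) := by rw [bet_zero]; exact A3.mul_mel hn3 _
  refine ⟨c0 + c2, c1 + c3, ?_, ?_, ?_⟩
  · have := (((H0.mul A1).mul H2).mul A3).mul H4
    convert this using 1
    calc zc (c0 + c2) * (h0 * h1 * h2 * h3 * h4)
        = zc c0 * zc c2 * (alp p * alp p) * (h0 * h1 * h2 * h3 * h4) := by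
          rw [alp_alp, mul_one, zc_add]
      _ = zc c0 * alp p * ((zc c2 * alp p) * (h0 * h1 * h2)) * (h3 * h4) := by
          simp only [mul_assoc]
          congr 1
          simp only [← mul_assoc]
          rw [zc_comm c2 (alp p)]
      _ = zc c0 * alp p * (h0 * h1 * h2 * alp 0) * (h3 * h4) := by rw [← k2]
      _ = (zc c0 * alp p * h0) * h1 * h2 * alp 0 * h3 * h4 := by simp only [mul_assoc]
      _ = h0 * (alp 0 * h1) * h2 * (alp 0 * h3) * h4 := by rw [← k0]; simp only [mul_assoc]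
  · have := (((H0.mul H1).mul B2).mul B3).mul H4
    convert this using 1
    calc zc (c1 + c3) * (h0 * h1 * h2 * h3 * h4)
        = zc c1 * zc c3 * (bet q * bet q) * (h0 * h1 * h2 * h3 * h4) := by
          rw [bet_bet, mul_one, zc_add]
      _ = zc c1 * bet q * ((zc c3 * bet q) * (h0 * h1 * h2 * h3)) * h4 := by
          simp only [mul_assoc]
          congr 1
          simp only [← mul_assoc]
          rw [zc_comm c3 (bet q)]
      _ = zc c1 * bet q * (h0 * h1 * h2 * h3 * bet 0) * h4 := by rw [← k3]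
      _ = (zc c1 * bet q * (h0 * h1)) * h2 * h3 * bet 0 * h4 := by simp only [mul_assoc]
      _ = h0 * h1 * (bet 0 * h2) * (h3 * bet 0) * h4 := by rw [← k1]; simp only [mul_assoc]
  · have := (((H0.mul A1).mul B2).mul AB3).mul H4
    convert this using 1
    have step1 : h0 * (alp 0 * h1) * (bet 0 * h2) * (alp 0 * h3 * bet 0) * h4 =
        (h0 * alp 0) * h1 * bet 0 * h2 * alp 0 * h3 * bet 0 * h4 := by simp only [mul_assoc]
    have step2 : (h0 * alp 0) * h1 * bet 0 * h2 * alp 0 * h3 * bet 0 * h4 =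
        zc c0 * alp p * (h0 * h1 * bet 0) * h2 * alp 0 * h3 * bet 0 * h4 := by
      rw [k0]; simp only [mul_assoc]
    have step3 : zc c0 * alp p * (h0 * h1 * bet 0) * h2 * alp 0 * h3 * bet 0 * h4 =
        zc c0 * alp p * (zc c1 * bet q) * (h0 * h1 * h2 * alp 0) * h3 * bet 0 * h4 := by
      rw [k1]; simp only [mul_assoc]
    have step4 : zc c0 * alp p * (zc c1 * bet q) * (h0 * h1 * h2 * alp 0) * h3 * bet 0 * h4 =
        zc c0 * alp p * (zc c1 * bet q) * (zc c2 * alp p) * (h0 * h1 * h2 * h3 * bet 0) * h4 := by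
      rw [k2]; simp only [mul_assoc]
    have step5 : zc c0 * alp p * (zc c1 * bet q) * (zc c2 * alp p) *
        (h0 * h1 * h2 * h3 * bet 0) * h4 =
        zc c0 * alp p * (zc c1 * bet q) * (zc c2 * alp p) * (zc c3 * bet q) *
        (h0 * h1 * h2 * h3 * h4) := by
      rw [k3]; simp only [mul_assoc]
    have step6 : zc c0 * alp p * (zc c1 * bet q) * (zc c2 * alp p) * (zc c3 * bet q) =
        zc (c0 + c2 + (c1 + c3) + cc p q) := by
      have r1 : zc c0 * alp p * (zc c1 * bet q) * (zc c2 * alp p) * (zc c3 * bet q) =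
          zc c0 * (zc c1 * (zc c2 * (zc c3 * (alp p * bet q * alp p * bet q)))) := by
        have m1 : alp p * (zc c1 * bet q) = zc c1 * (alp p * bet q) := by
          rw [← mul_assoc, ← zc_comm, mul_assoc]
        have m2 : alp p * bet q * (zc c2 * alp p) = zc c2 * (alp p * bet q * alp p) := by
          rw [← mul_assoc, ← zc_comm, mul_assoc]
        have m3 : alp p * bet q * alp p * (zc c3 * bet q) =
            zc c3 * (alp p * bet q * alp p * bet q) := by
          rw [← mul_assoc, ← zc_comm, mul_assoc]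
        calc zc c0 * alp p * (zc c1 * bet q) * (zc c2 * alp p) * (zc c3 * bet q)
            = zc c0 * (alp p * (zc c1 * bet q)) * (zc c2 * alp p) * (zc c3 * bet q) := by
              simp only [mul_assoc]
          _ = zc c0 * (zc c1 * (alp p * bet q * (zc c2 * alp p))) * (zc c3 * bet q) := by
              rw [m1]; simp only [mul_assoc]
          _ = zc c0 * (zc c1 * (zc c2 * (alp p * bet q * alp p * (zc c3 * bet q)))) := by
              rw [m2]; simp only [mul_assoc]
          _ = _ := by rw [m3]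
      rw [r1, comm_eq, zc_add, zc_add, zc_add, zc_add]
      congr 1
      abel
    rw [step1, step2, step3, step4, step5, step6]

end Pool.Agent.H11.Ann
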