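import Mathlib
import Pool.Agent.H11.Ann2

namespace Pool.Agent.H11.Ann

open K

/-- positions of a list of elements of `Hs` -/
def posH : List Hs → List ℕ
  | [] => [0]
  | x :: l => 0 :: (posH l).map (fun p => (x.s : Equiv.Perm ℕ) p)

theorem posH_getElem? (l : List Hs) (j : ℕ) (hj : j ≤ l.length) :
    (posH l)[j]? = some (((l.take j).prod.s : Equiv.Perm ℕ) 0) := by
  induction l generalizing j with
  | nil =>
    have : j = 0 := by simpa using hj
    subst this
    rfl
  | cons x l ih =>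
    cases j with
    | zero => rfl
    | succ j =>
      rw [posH, List.getElem?_cons_succ, List.getElem?_map, ih j (by simpa using hj)]
      rfl

theorem length_posH (l : List Hs) : (posH l).length = l.length + 1 := by
  induction l with
  | nil => rfl
  | cons x l ih => simp [posH, ih]

theorem posH_eq (l : List Hs) : posH l = 0 :: (posH l).tail := by
  cases l <;> simp [posH]

/-- conversion to words in `K` -/
theorem exists_word (l : List Hs) (hl : ∀ x ∈ l, IsGen x) :
    ∃ (L : List K) (t : K), L.length = l.length ∧ posH l = pos L ∧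
      ∀ n, (l.prod.s : Equiv.Perm ℕ) n = elW (L, t) n := by
  induction l with
  | nil =>
    refine ⟨[], e, rfl, rfl, fun n => ?_⟩
    simp [elW, el, act_e, Hs.one_s]
  | cons x l ih =>
    obtain ⟨L, t, h1, h2, h3⟩ := ih (fun y hy => hl y (by simp [hy]))
    obtain ⟨m, m', hx⟩ := hl x (by simp)
    have hxs : ∀ n, (x.s : Equiv.Perm ℕ) n = act m.1 (fl (act m'.1 n)) := by
      intro n
      rw [hx]
      rfl
    refine ⟨m.1 :: (mulK m'.1 (L, t)).1, (mulK m'.1 (L, t)).2, ?_, ?_, ?_⟩
    · rw [List.length_cons, List.length_cons, ← h1]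
      cases L <;> simp [mulK]
    · rw [posH, pos, pos_mulK, List.map_map, h2]
      congr 1
      apply List.map_congr_left
      intro p _
      rw [hxs]
      rfl
    · intro n
      rw [List.prod_cons, Hs.mul_s]
      change (x.s : Equiv.Perm ℕ) ((l.prod.s : Equiv.Perm ℕ) n) = _
      rw [h3, hxs]
      change _ = act m.1 (fl (elW (mulK m'.1 (L, t)) n))
      rw [elW_mulK]

theorem Sn_of_list {l : List Hs} (hl : ∀ x ∈ l, IsGen x) : Sn l.length l.prod := ⟨l, rfl, hl, rfl⟩

theorem take_append_aux (l : List Hs) {i j : ℕ} (hij : i ≤ j) :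
    l.take i ++ (l.take j).drop i = l.take j := by
  have := List.take_append_drop i (l.take j)
  rwa [List.take_take, min_eq_left hij] at this

/-- The local lemma. -/
theorem local_lemma {m : ℕ} {l : List Hs} (hl : ∀ x ∈ l, IsGen x) (hc : Cross m (posH l)) :
    ∃ x x' : V, Sn l.length (zc x * l.prod) ∧ Sn l.length (zc x' * l.prod) ∧
      Sn l.length (zc (x + x' + Finsupp.single m 1) * l.prod) := by
  obtain ⟨p, q, hpq, hm, hs⟩ := hc
  obtain ⟨f, hf⟩ := List.sublist_iff_exists_fin_orderEmbedding_get_eq.1 hs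
  have hlen : ([p, q, p, q] : List ℕ).length = 4 := rfl
  have i0 : (0 : ℕ) < ([p, q, p, q] : List ℕ).length := by rw [hlen]; omega
  have i1 : (1 : ℕ) < ([p, q, p, q] : List ℕ).length := by rw [hlen]; omega
  have i2 : (2 : ℕ) < ([p, q, p, q] : List ℕ).length := by rw [hlen]; omega
  have i3 : (3 : ℕ) < ([p, q, p, q] : List ℕ).length := by rw [hlen]; omega
  have m01 : (f ⟨0, i0⟩ : ℕ) < f ⟨1, i1⟩ := f.strictMono (show (⟨0, i0⟩ : Fin _) < ⟨1, i1⟩ by simp)
  have m12 : (f ⟨1, i1⟩ : ℕ) < f ⟨2, i2⟩ := f.strictMono (show (⟨1, i1⟩ : Fin _) < ⟨2, i2⟩ by simp)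
  have m23 : (f ⟨2, i2⟩ : ℕ) < f ⟨3, i3⟩ := f.strictMono (show (⟨2, i2⟩ : Fin _) < ⟨3, i3⟩ by simp)
  have b3 : (f ⟨3, i3⟩ : ℕ) < l.length + 1 := lt_of_lt_of_eq (f ⟨3, i3⟩).2 (length_posH l)
  have g0 := hf ⟨0, i0⟩
  have g1 := hf ⟨1, i1⟩
  have g2 := hf ⟨2, i2⟩
  have g3 := hf ⟨3, i3⟩
  have key : ∀ (j : Fin (posH l).length) (r : ℕ), r = (posH l).get j →
      ((l.take j).prod.s : Equiv.Perm ℕ) 0 = r := by
    intro j r hr
    have h1 := posH_getElem? l j (Nat.lt_succ_iff.1 (lt_of_lt_of_eq j.2 (length_posH l)))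
    have h2 : (posH l)[(j : ℕ)]? = some ((posH l).get j) := by
      rw [List.getElem?_eq_getElem j.2]; rfl
    rw [h1, ← hr] at h2
    exact Option.some.inj h2
  have k0 := key _ _ g0
  have k1 := key _ _ g1
  have k2 := key _ _ g2
  have k3 := key _ _ g3
  change _ = p at k0
  change _ = q at k1
  change _ = p at k2
  change _ = q at k3
  generalize (f ⟨0, i0⟩ : ℕ) = j0 at *
  generalize (f ⟨1, i1⟩ : ℕ) = j1 at *
  generalize (f ⟨2, i2⟩ : ℕ) = j2 at *
  generalize (f ⟨3, i3⟩ : ℕ) = j3 at *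
  have t1 := take_append_aux l m01.le
  have t2 := take_append_aux l m12.le
  have t3 := take_append_aux l m23.le
  have t4 : l.take j3 ++ l.drop j3 = l := List.take_append_drop _ _
  have q1 : (l.take j0).prod * ((l.take j1).drop j0).prod = (l.take j1).prod := by
    rw [← List.prod_append, t1]
  have q2 : (l.take j1).prod * ((l.take j2).drop j1).prod = (l.take j2).prod := by
    rw [← List.prod_append, t2]
  have q3 : (l.take j2).prod * ((l.take j3).drop j2).prod = (l.take j3).prod := by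
    rw [← List.prod_append, t3]
  have q4 : (l.take j3).prod * (l.drop j3).prod = l.prod := by
    rw [← List.prod_append, t4]
  have G : ∀ l' : List Hs, List.Sublist l' l → Sn l'.length l'.prod := fun l' h =>
    Sn_of_list (fun x hx => hl x (h.subset hx))
  have H0 := G (l.take j0) (List.take_sublist _ _)
  have H1 := G ((l.take j1).drop j0) ((List.drop_sublist _ _).trans (List.take_sublist _ _))
  have H2 := G ((l.take j2).drop j1) ((List.drop_sublist _ _).trans (List.take_sublist _ _))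
  have H3 := G ((l.take j3).drop j2) ((List.drop_sublist _ _).trans (List.take_sublist _ _))
  have H4 := G (l.drop j3) (List.drop_sublist _ _)
  have L0 : (l.take j0).length = j0 := by rw [List.length_take]; omega
  have L1 : ((l.take j1).drop j0).length = j1 - j0 := by
    rw [List.length_drop, List.length_take]; omega
  have L2 : ((l.take j2).drop j1).length = j2 - j1 := by
    rw [List.length_drop, List.length_take]; omega
  have L3 : ((l.take j3).drop j2).length = j3 - j2 := by
    rw [List.length_drop, List.length_take]; omega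
  have L4 : (l.drop j3).length = l.length - j3 := by
    rw [List.length_drop]
  rw [L0] at H0
  rw [L1] at H1
  rw [L2] at H2
  rw [L3] at H3
  rw [L4] at H4
  obtain ⟨x, x', r1, r2, r3⟩ := insert_lemma (p := p) (q := q) H0 H1 H2 H3 H4 (by omega)
    (by omega) (by omega)
    k0 (by rw [q1]; exact k1) (by rw [q1, q2]; exact k2) (by rw [q1, q2, q3]; exact k3)
  have hsum : j0 + (j1 - j0) + (j2 - j1) + (j3 - j2) + (l.length - j3) = l.length := by omega
  rw [hsum, q1, q2, q3, q4] at r1 r2 r3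
  have hcc : cc p q = Finsupp.single m 1 := by
    unfold cc; rw [if_neg hpq, hm]
  rw [hcc] at r3
  exact ⟨x, x', r1, r2, r3⟩

/-! ### Finiteness of elements given by words without crossings of level `m` -/

theorem finite_supported (F : Set ℕ) (hF : F.Finite) :
    {v : V | ∀ p, v p ≠ 0 → p ∈ F}.Finite := by
  classical
  refine ((hF.toFinset.powerset.finite_toSet).image
    (fun T : Finset ℕ => ∑ p ∈ T, Finsupp.single p (1 : ZMod 2))).subset ?_
  intro v hv
  refine ⟨v.support, ?_, ?_⟩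
  · rw [Finset.mem_coe, Finset.mem_powerset]
    intro p hp
    rw [Set.Finite.mem_toFinset]
    exact hv p (Finsupp.mem_support_iff.1 hp)
  · change ∑ p ∈ v.support, Finsupp.single p (1 : ZMod 2) = v
    conv_rhs => rw [← Finsupp.sum_single v]
    rw [Finsupp.sum]
    apply Finset.sum_congr rfl
    intro p hp
    have h1 : v p ≠ 0 := Finsupp.mem_support_iff.1 hp
    have h2 : ∀ x : ZMod 2, x ≠ 0 → x = 1 := by decide
    rw [h2 _ h1]

/-- support in a set -/
def SupIn (F : Set ℕ) (v : V) : Prop := ∀ p, v p ≠ 0 → p ∈ F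

theorem SupIn.add {F : Set ℕ} {v w : V} (hv : SupIn F v) (hw : SupIn F w) : SupIn F (v + w) := by
  intro p hp
  by_contra h
  apply hp
  rw [Finsupp.add_apply]
  have h1 : v p = 0 := by_contra fun h' => h (hv p h')
  have h2 : w p = 0 := by_contra fun h' => h (hw p h')
  rw [h1, h2, add_zero]

theorem SupIn.mono {F F' : Set ℕ} (h : F ⊆ F') {v : V} (hv : SupIn F v) : SupIn F' v :=
  fun p hp => h (hv p hp)

theorem SupIn.single {F : Set ℕ} {p : ℕ} (hp : p ∈ F) (x : ZMod 2) :
    SupIn F (Finsupp.single p x) := by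
  intro q hq
  by_cases h : p = q
  · exact h ▸ hp
  · exact absurd (Finsupp.single_eq_of_ne (Ne.symm h)) hq

theorem SupIn.mp' {F : Set ℕ} {v : V} (hv : SupIn F v) (s : Iso) :
    SupIn ((fun p => (s : Equiv.Perm ℕ) p) '' F) (mp s v) := by
  intro q hq
  have h1 : mp s v q = v ((s : Equiv.Perm ℕ).symm q) := by
    have := Finsupp.mapDomain_apply (s : Equiv.Perm ℕ).injective v ((s : Equiv.Perm ℕ).symm q)
    rw [Equiv.apply_symm_apply] at this
    exact this
  rw [h1] at hq
  exact ⟨_, hv _ hq, by simp⟩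

/-- levels of pairs of `F` -/
def Lv (F : Set ℕ) : Set ℕ := {m | ∃ p ∈ F, ∃ q ∈ F, lvl p q = m}

theorem Lv_mono {F F' : Set ℕ} (h : F ⊆ F') : Lv F ⊆ Lv F' := by
  rintro m ⟨p, hp, q, hq, rfl⟩
  exact ⟨p, h hp, q, h hq, rfl⟩

theorem Lv_image (F : Set ℕ) (s : Iso) : Lv ((fun p => (s : Equiv.Perm ℕ) p) '' F) = Lv F := by
  ext m
  constructor
  · rintro ⟨_, ⟨p, hp, rfl⟩, _, ⟨q, hq, rfl⟩, h⟩
    exact ⟨p, hp, q, hq, by rw [← h]; exact (s.2 p q).symm⟩
  · rintro ⟨p, hp, q, hq, h⟩
    exact ⟨_, ⟨p, hp, rfl⟩, _, ⟨q, hq, rfl⟩, by rw [← h]; exact s.2 p q⟩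

theorem Lv_finite {F : Set ℕ} (hF : F.Finite) : (Lv F).Finite := by
  refine ((hF.prod hF).image (fun x : ℕ × ℕ => lvl x.1 x.2)).subset ?_
  rintro m ⟨p, hp, q, hq, h⟩
  exact ⟨(p, q), ⟨hp, hq⟩, h⟩

theorem SupIn.sum {ι : Type} {F : Set ℕ} (s : Finset ι) (f : ι → V)
    (h : ∀ i ∈ s, SupIn F (f i)) : SupIn F (∑ i ∈ s, f i) := by
  classical
  induction s using Finset.induction_on with
  | empty => intro p hp; simp at hp
  | insert a s ha ih =>
    rw [Finset.sum_insert ha]
    exact (h a (by simp)).add (ih (fun i hi => h i (by simp [hi])))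

theorem SupIn.form {F : Set ℕ} {v w : V} (hv : SupIn F v) (hw : SupIn F w) :
    SupIn (Lv F) (B v w) := by
  have h1 : B v w = ∑ p ∈ v.support, ∑ q ∈ w.support, (v p * w q) • cc p q := by
    conv_lhs => rw [← Finsupp.sum_single v, ← Finsupp.sum_single w]
    simp only [Finsupp.sum, map_sum, LinearMap.sum_apply, B_single]
    first
      | rfl
      | exact Finset.sum_comm
  rw [h1]
  apply SupIn.sum
  intro p hp
  apply SupIn.sum
  intro q hq
  unfold cc
  split_ifs with hpq
  · intro r hr; simp at hr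
  · rw [Finsupp.smul_single]
    exact SupIn.single (F := Lv F) (p := lvl p q) ⟨p, hv p (Finsupp.mem_support_iff.1 hp), q,
      hw q (Finsupp.mem_support_iff.1 hq), rfl⟩ _

theorem sup_of_list (l : List Hs) (hl : ∀ x ∈ l, IsGen x) :
    SupIn {p | p ∈ posH l} l.prod.v ∧ SupIn {p | p ∈ posH l} l.prod.w ∧
      SupIn (Lv {p | p ∈ posH l}) l.prod.z := by
  induction l with
  | nil =>
    refine ⟨?_, ?_, ?_⟩ <;> intro p hp <;> exact absurd rfl hp
  | cons x l ih =>
    obtain ⟨ih1, ih2, ih3⟩ := ih (fun y hy => hl y (by simp [hy]))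
    obtain ⟨m, m', hx⟩ := hl x (by simp)
    have hsub : (fun p => (x.s : Equiv.Perm ℕ) p) '' {p | p ∈ posH l} ⊆ {p | p ∈ posH (x :: l)} := by
      rintro _ ⟨p, hp, rfl⟩
      exact List.mem_cons_of_mem _ (List.mem_map.2 ⟨p, hp, rfl⟩)
    have h0l : (0 : ℕ) ∈ posH l := by rw [posH_eq]; simp
    have h0 : (0 : ℕ) ∈ {p | p ∈ posH (x :: l)} := by simp [posH]
    have h1 : (x.s : Equiv.Perm ℕ) 0 ∈ {p | p ∈ posH (x :: l)} := hsub ⟨0, h0l, rfl⟩
    have hx0 : (x.s : Equiv.Perm ℕ) 0 = act m.1 (fl 0) := by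
      rw [hx]
      change act m.1 (fl (act m'.1 0)) = _
      rw [act_zero]
    rw [hx0] at h1
    generalize {p | p ∈ posH (x :: l)} = F' at hsub h0 h1
    have xv : SupIn F' x.v := by
      rw [hx, Hs.mul_v, Hs.mul_v]
      refine SupIn.add (SupIn.add (SupIn.single h0 _) ?_) ?_
      · intro p hp; simp [aE] at hp
      · rw [Hs.mul_s, mp_mul]
        simp only [mel, aE]
        rw [mp_single, mp_single]
        exact SupIn.single h1 _
    have xw : SupIn F' x.w := by
      rw [hx, Hs.mul_w, Hs.mul_w]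
      refine SupIn.add (SupIn.add (SupIn.single h0 _) ?_) ?_
      · intro p hp; simp [aE] at hp
      · rw [Hs.mul_s, mp_mul]
        simp only [mel, aE]
        rw [mp_single, mp_single]
        exact SupIn.single h1 _
    have xz : SupIn (Lv F') x.z := by
      rw [hx, Hs.mul_z, Hs.mul_z]
      have e1 : (mel m).z = 0 := rfl
      have e2 : (aE).z = 0 := rfl
      have e3 : (mel m').z = 0 := rfl
      have e4 : B (mel m).v (mp (mel m).s aE.w) = 0 := by simp [aE]
      rw [e1, e2, e3, e4]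
      simp only [add_zero, zero_add]
      apply SupIn.form
      · rw [Hs.mul_v]
        refine SupIn.add (SupIn.single h0 _) ?_
        intro p hp; simp [aE] at hp
      · rw [Hs.mul_s, mp_mul]
        simp only [mel, aE]
        rw [mp_single, mp_single]
        exact SupIn.single h1 _
    rw [List.prod_cons]
    refine ⟨?_, ?_, ?_⟩
    · rw [Hs.mul_v]
      exact xv.add ((ih1.mp' _).mono hsub)
    · rw [Hs.mul_w]
      exact xw.add ((ih2.mp' _).mono hsub)
    · rw [Hs.mul_z]
      refine (xz.add (ih3.mono ?_)).add (xv.form ((ih2.mp' _).mono hsub))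
      rw [← Lv_image _ x.s]
      exact Lv_mono hsub

/-- The set of elements given by words without crossing of level `m` (after time `0`) is finite. -/
theorem finite_E (m : ℕ) : {y : Hs | ∃ l : List Hs, (∀ x ∈ l, IsGen x) ∧
    ¬ Cross m (posH l).tail ∧ l.prod = y}.Finite := by
  obtain ⟨h1, h2⟩ := finite_not_cross m
  set F : Set ℕ := {p : ℕ | ∃ l, ¬ Cross m (pos l).tail ∧ p ∈ pos l} with hFdef
  have hV := finite_supported F h2
  have hZ := finite_supported (Lv F) (Lv_finite h2)
  -- the permutations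
  have hP : {s : Iso | ∃ (L : List K) (t : K), ¬ Cross m (pos L).tail ∧
      ∀ n, (s : Equiv.Perm ℕ) n = elW (L, t) n}.Finite := by
    have h3 : ((fun x : (ℕ → ℕ) × K => fun n => x.1 (act x.2 n)) ''
      ({f : ℕ → ℕ | ∃ l, ¬ Cross m (pos l).tail ∧ f = el l} ×ˢ Set.univ)).Finite :=
      (h1.prod Set.finite_univ).image _
    refine Set.Finite.of_finite_image (f := fun s : Iso => fun n => (s : Equiv.Perm ℕ) n)
      (h3.subset ?_) ?_
    · rintro _ ⟨s, ⟨L, t, hL, hs⟩, rfl⟩
      refine ⟨(el L, t), ⟨⟨L, hL, rfl⟩, trivial⟩, ?_⟩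
      funext n
      exact (hs n).symm
    · intro s _ s' _ h
      apply Subtype.ext
      apply Equiv.ext
      intro n
      exact congrFun h n
  refine Set.Finite.of_finite_image (f := fun y : Hs => (y.v, y.w, y.z, y.s))
    (((hV.prod (hV.prod (hZ.prod hP)))).subset ?_) ?_
  · rintro _ ⟨y, ⟨l, hl, hc, rfl⟩, rfl⟩
    obtain ⟨L, t, k1, k2, k3⟩ := exists_word l hl
    obtain ⟨s1, s2, s3⟩ := sup_of_list l hl
    rw [k2] at hc s1 s2 s3
    have hsub : {p | p ∈ pos L} ⊆ F := fun p hp => ⟨L, hc, hp⟩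
    exact ⟨s1.mono hsub, s2.mono hsub, s3.mono (Lv_mono hsub), L, t, hc, k3⟩
  · intro y _ y' _ h
    simp only [Prod.mk.injEq] at h
    exact Hs.ext h.1 h.2.1 h.2.2.1 h.2.2.2

end Pool.Agent.H11.Ann
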