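import Mathlib
import Pool.Agent.H11.Ann3

namespace Pool.Agent.H11.Ann

open K

/-- The group generated by the generators. -/
noncomputable def GG : Subgroup Hs := Subgroup.closure {x | IsGen x}

theorem mem_GG_of_Sn {n : ℕ} {y : Hs} (h : Sn n y) : y ∈ GG := by
  obtain ⟨l, _, h2, rfl⟩ := h
  exact Subgroup.list_prod_mem _ (fun x hx => Subgroup.subset_closure (h2 x hx))

theorem Sn_zero : Sn 0 1 := ⟨[], rfl, by simp, rfl⟩

theorem Sn_one {x : Hs} (h : IsGen x) : Sn 1 x := ⟨[x], rfl, by simpa using h, by simp⟩

theorem Sn.inv {n : ℕ} {y : Hs} (h : Sn n y) : Sn n y⁻¹ := by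
  obtain ⟨l, h1, h2, h3⟩ := h
  refine ⟨(l.map (fun x => x⁻¹)).reverse, by simpa using h1, ?_, ?_⟩
  · intro x hx
    rw [List.mem_reverse, List.mem_map] at hx
    obtain ⟨z, hz, rfl⟩ := hx
    exact (h2 z hz).inv
  · rw [← h3, List.prod_inv_reverse]

theorem exists_Sn {y : Hs} (h : y ∈ GG) : ∃ n, Sn n y := by
  induction h using Subgroup.closure_induction with
  | mem x hx => exact ⟨1, Sn_one hx⟩
  | one => exact ⟨0, Sn_zero⟩
  | mul x y _ _ hx hy =>
    obtain ⟨m, hm⟩ := hx
    obtain ⟨n, hn⟩ := hy
    exact ⟨m + n, hm.mul hn⟩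
  | inv x _ hx =>
    obtain ⟨m, hm⟩ := hx
    exact ⟨m, hm.inv⟩

/-- word length -/
noncomputable def len (y : Hs) : ℕ := sInf {n | Sn n y}

theorem len_le {n : ℕ} {y : Hs} (h : Sn n y) : len y ≤ n := Nat.sInf_le h

theorem Sn_len {y : Hs} (h : y ∈ GG) : Sn (len y) y :=
  Nat.sInf_mem (s := {n | Sn n y}) (exists_Sn h)

/-- geodesic words -/
def Geo (l : List Hs) : Prop := (∀ x ∈ l, IsGen x) ∧ len l.prod = l.length

theorem Geo.sub {a b c : List Hs} (h : Geo (a ++ b ++ c)) : Geo b := by
  have hb : ∀ x ∈ b, IsGen x := fun x hx => h.1 x (by simp [hx])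
  refine ⟨hb, le_antisymm (len_le (Sn_of_list hb)) ?_⟩
  have h1 : Sn (len b.prod) b.prod := Sn_len (mem_GG_of_Sn (Sn_of_list hb))
  have ha : Sn a.length a.prod := Sn_of_list (fun x hx => h.1 x (by simp [hx]))
  have hc : Sn c.length c.prod := Sn_of_list (fun x hx => h.1 x (by simp [hx]))
  have h2 := len_le ((ha.mul h1).mul hc)
  have h3 : len (a.prod * b.prod * c.prod) = a.length + b.length + c.length := by
    have := h.2
    rwa [List.prod_append, List.prod_append, List.length_append, List.length_append] at this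
  omega

theorem exists_geo {y : Hs} (h : y ∈ GG) : ∃ l, Geo l ∧ l.prod = y ∧ l.length = len y := by
  obtain ⟨l, h1, h2, h3⟩ := Sn_len h
  exact ⟨l, ⟨h2, by rw [h3, h1]⟩, h3, h1⟩

theorem tail_sub (l1 l2 : List Hs) : List.Sublist (posH l1).tail (posH (l1 ++ l2)).tail ∧
    List.Sublist (posH l1) (posH (l1 ++ l2)) := by
  induction l1 with
  | nil =>
    constructor
    · simp [posH]
    · rw [List.nil_append, posH_eq l2]
      simp [posH]
  | cons x l ih =>
    have h : List.Sublist (posH (x :: l)).tail (posH (x :: l ++ l2)).tail := by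
      change List.Sublist ((posH l).map _) ((posH (l ++ l2)).map _)
      exact ih.2.map _
    refine ⟨h, ?_⟩
    rw [posH_eq (x :: l), posH_eq (x :: l ++ l2)]
    exact h.cons_cons 0

/-- Long geodesic words contain a crossing of level `m`. -/
theorem exists_cross (m : ℕ) : ∃ W, 0 < W ∧ ∀ l, Geo l → W ≤ l.length → Cross m (posH l) := by
  have hfin := finite_E m
  refine ⟨_, Nat.succ_pos (Set.ncard {y : Hs | ∃ l : List Hs, (∀ x ∈ l, IsGen x) ∧
    ¬ Cross m (posH l).tail ∧ l.prod = y}), fun l hl hW => ?_⟩
  by_contra hc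
  have hc' : ¬ Cross m (posH l).tail := fun h => hc (h.mono (List.tail_sublist _))
  have hmem : ∀ j, (l.take j).prod ∈ {y : Hs | ∃ l : List Hs, (∀ x ∈ l, IsGen x) ∧
      ¬ Cross m (posH l).tail ∧ l.prod = y} := by
    intro j
    refine ⟨l.take j, fun x hx => hl.1 x (List.mem_of_mem_take hx), fun h => hc' ?_, rfl⟩
    have := (tail_sub (l.take j) (l.drop j)).1
    rw [List.take_append_drop] at this
    exact h.mono this
  have hinj : Set.InjOn (fun j => (l.take j).prod) (Finset.range (l.length + 1) : Set ℕ) := by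
    have key : ∀ i j, i < j → j ≤ l.length → (l.take i).prod ≠ (l.take j).prod := by
      intro i j hij hj heq
      have h1 : Sn i (l.take i).prod := by
        have := Sn_of_list (l := l.take i) (fun x hx => hl.1 x (List.mem_of_mem_take hx))
        rwa [List.length_take, min_eq_left (by omega)] at this
      have h2 : Sn (l.length - j) (l.drop j).prod := by
        have := Sn_of_list (l := l.drop j) (fun x hx => hl.1 x (List.mem_of_mem_drop hx))
        rwa [List.length_drop] at this
      have h3 := h1.mul h2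
      rw [heq, ← List.prod_append, List.take_append_drop] at h3
      have h4 := len_le h3
      rw [hl.2] at h4
      omega
    intro i hi j hj hij
    rw [Finset.mem_coe, Finset.mem_range] at hi hj
    rcases lt_trichotomy i j with h | h | h
    · exact absurd hij (key i j h (by omega))
    · exact h
    · exact absurd hij.symm (key j i h (by omega))
  have h1 : ((Finset.range (l.length + 1) : Finset ℕ) : Set ℕ).ncard ≤
      Set.ncard {y : Hs | ∃ l : List Hs, (∀ x ∈ l, IsGen x) ∧
      ¬ Cross m (posH l).tail ∧ l.prod = y} :=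
    Set.ncard_le_ncard_of_injOn _ (fun j _ => hmem j) hinj hfin
  rw [Set.ncard_coe_finset, Finset.card_range] at h1
  omega

theorem finite_Sn (n : ℕ) : {y | Sn n y}.Finite := by
  induction n with
  | zero =>
    refine (Set.finite_singleton (1 : Hs)).subset ?_
    rintro y ⟨l, h1, _, h3⟩
    rw [List.length_eq_zero_iff] at h1
    subst h1
    simpa using h3.symm
  | succ n ih =>
    refine ((finite_gen.prod ih).image (fun x : Hs × Hs => x.1 * x.2)).subset ?_
    rintro y ⟨l, h1, h2, h3⟩
    cases l with
    | nil => simp at h1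
    | cons x l =>
      refine ⟨(x, l.prod), ⟨h2 x (by simp), l, by simpa using h1, fun z hz => h2 z (by simp [hz]),
        rfl⟩, ?_⟩
      rw [← h3, List.prod_cons]

theorem zc_mul_mem_iff {x : V} : zc x * zc x = 1 := by rw [zc_add, V_add_self, zc_zero]

theorem block_lemma (l : List Hs) (W : ℕ) (c : ℕ → V) (T : ℕ)
    (h : ∀ i < T, Sn W (zc (c i) * ((l.drop (i * W)).take W).prod)) :
    Sn (T * W) (zc (∑ i ∈ Finset.range T, c i) * (l.take (T * W)).prod) := by
  induction T with
  | zero => simp [zc_zero, Sn_zero]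
  | succ T ih =>
    have h1 := ih (fun i hi => h i (by omega))
    have h2 := h T (by omega)
    have h3 := h1.mul h2
    have e1 : (T + 1) * W = T * W + W := by ring
    rw [e1, List.take_add, List.prod_append, Finset.sum_range_succ, ← zc_add]
    convert h3 using 1
    calc zc (∑ i ∈ Finset.range T, c i) * zc (c T) *
          ((l.take (T * W)).prod * ((l.drop (T * W)).take W).prod)
        = zc (∑ i ∈ Finset.range T, c i) * (zc (c T) * (l.take (T * W)).prod) *
          ((l.drop (T * W)).take W).prod := by simp only [mul_assoc]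
      _ = zc (∑ i ∈ Finset.range T, c i) * ((l.take (T * W)).prod * zc (c T)) *
          ((l.drop (T * W)).take W).prod := by rw [zc_comm (c T)]
      _ = _ := by simp only [mul_assoc]

/-- Absorption of the central element `z_m` by long elements. -/
theorem absorb (m : ℕ) : ∃ R, ∀ y ∈ GG, R ≤ len y →
    Sn (len y) (zc (Finsupp.single m 1) * y) := by
  classical
  obtain ⟨W, hW0, hW⟩ := exists_cross m
  have hfin := finite_Sn W
  set Q := hfin.toFinset with hQ
  refine ⟨(2 * Q.card + 1) * W, fun y hy hR => ?_⟩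
  obtain ⟨l, hl, hprod, hlen⟩ := exists_geo hy
  rw [← hlen] at hR ⊢
  -- blocks
  have hblen : ∀ i < 2 * Q.card + 1, ((l.drop (i * W)).take W).length = W := by
    intro i hi
    rw [List.length_take, List.length_drop]
    apply min_eq_left
    have : (i + 1) * W ≤ (2 * Q.card + 1) * W := Nat.mul_le_mul_right _ (by omega)
    have e : (i + 1) * W = i * W + W := by ring
    omega
  have hbgeo : ∀ i, Geo ((l.drop (i * W)).take W) := by
    intro i
    apply Geo.sub (a := l.take (i * W)) (c := (l.drop (i * W)).drop W)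
    rw [List.append_assoc, List.take_append_drop, List.take_append_drop]
    exact hl
  have hmaps : ∀ i ∈ Finset.range (2 * Q.card + 1), ((l.drop (i * W)).take W).prod ∈ Q := by
    intro i hi
    rw [Finset.mem_range] at hi
    rw [hQ, Set.Finite.mem_toFinset]
    have := Sn_of_list (hbgeo i).1
    rwa [hblen i hi] at this
  obtain ⟨h, hhQ, hcard⟩ := Finset.exists_lt_card_fiber_of_mul_lt_card_of_maps_to (n := 2) hmaps
    (by rw [Finset.card_range]; omega)
  rw [Finset.two_lt_card] at hcard
  obtain ⟨i, hi, j, hj, k, hk, hij, hik, hjk⟩ := hcard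
  rw [Finset.mem_filter, Finset.mem_range] at hi hj hk
  obtain ⟨x, x', r1, r2, r3⟩ := local_lemma (hbgeo i).1
    (hW _ (hbgeo i) (by rw [hblen i hi.1]))
  rw [hblen i hi.1, hi.2] at r1 r2 r3
  -- the modification
  set c : ℕ → V := fun t => if t = i then x + x' + Finsupp.single m 1 else
    if t = j then x else if t = k then x' else 0 with hc
  have hT := block_lemma l W c (2 * Q.card + 1) (by
    intro t ht
    by_cases h1 : t = i
    · have : c t = x + x' + Finsupp.single m 1 := by simp [hc, h1]
      rw [this, h1, hi.2]; exact r3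
    · by_cases h2 : t = j
      · have : c t = x := by
          simp only [hc]; rw [if_neg h1, if_pos h2]
        rw [this, h2, hj.2]; exact r1
      · by_cases h3 : t = k
        · have : c t = x' := by
            simp only [hc]; rw [if_neg h1, if_neg h2, if_pos h3]
          rw [this, h3, hk.2]; exact r2
        · have : c t = 0 := by
            simp only [hc]; rw [if_neg h1, if_neg h2, if_neg h3]
          rw [this, zc_zero, one_mul]
          have := Sn_of_list (hbgeo t).1
          rwa [hblen t ht] at this)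
  have hsum : ∑ t ∈ Finset.range (2 * Q.card + 1), c t = Finsupp.single m 1 := by
    have hc' : c = fun t => (if t = i then x + x' + Finsupp.single m 1 else 0) +
        (if t = j then x else 0) + (if t = k then x' else 0) := by
      funext t
      simp only [hc]
      by_cases h1 : t = i
      · rw [if_pos h1, if_pos h1, if_neg (by rw [h1]; exact hij), if_neg (by rw [h1]; exact hik)]
        simp
      · by_cases h2 : t = j
        · rw [if_neg h1, if_pos h2, if_neg h1, if_pos h2, if_neg (by rw [h2]; exact hjk)]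
          simp
        · rw [if_neg h1, if_neg h2, if_neg h1, if_neg h2]
          simp
    rw [hc', Finset.sum_add_distrib, Finset.sum_add_distrib, Finset.sum_ite_eq',
      Finset.sum_ite_eq', Finset.sum_ite_eq', if_pos (Finset.mem_range.2 hi.1),
      if_pos (Finset.mem_range.2 hj.1), if_pos (Finset.mem_range.2 hk.1)]
    calc x + x' + Finsupp.single m 1 + x + x' = (x + x) + (x' + x') + Finsupp.single m 1 := by abel
      _ = Finsupp.single m 1 := by rw [V_add_self, V_add_self]; simp
  rw [hsum] at hT
  have hrest := Sn_of_list (l := l.drop ((2 * Q.card + 1) * W))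
    (fun x hx => hl.1 x (List.mem_of_mem_drop hx))
  have hfinal := hT.mul hrest
  rw [mul_assoc, ← List.prod_append, List.take_append_drop, hprod, List.length_drop] at hfinal
  have : (2 * Q.card + 1) * W + (l.length - (2 * Q.card + 1) * W) = l.length := by omega
  rwa [this] at hfinal

/-! ### The group is infinite -/

/-- points reachable from `0` -/
inductive Reach : ℕ → Prop
  | zero : Reach 0
  | flip {n : ℕ} : Reach n → Reach (fl n)
  | act (k : K) {n : ℕ} : Reach n → Reach (act k n)

theorem Reach.double {n : ℕ} (h : Reach n) : Reach (2 * n) := by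
  induction h with
  | zero => exact Reach.zero
  | @flip n _ ih =>
    have h1 : Reach (fl (Ann.act K.b (fl (2 * n)))) := (ih.flip.act K.b).flip
    rw [fl_even, act_odd] at h1
    simp only [ep, if_true] at h1
    rwa [fl_odd] at h1
  | @act k n _ ih =>
    obtain ⟨k', rfl⟩ := sg_surj k
    have h1 : Reach (Ann.act k' (2 * n)) := ih.act k'
    rwa [act_even] at h1

theorem reach_all (n : ℕ) : Reach n := by
  induction n using Nat.strong_induction_on with
  | _ n ih =>
    rcases parity_cases n with ⟨m, rfl⟩ | ⟨m, rfl⟩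
    · by_cases h : m = 0
      · subst h; exact Reach.zero
      · exact (ih m (by omega)).double
    · rw [← fl_even]
      exact (ih (2 * m) (by omega)).flip

theorem aE_mem : aE ∈ GG := Subgroup.subset_closure ⟨(e, 0, 0), (e, 0, 0), by rw [mel_one]; simp⟩

theorem mel_mem (m : K × ZMod 2 × ZMod 2) : mel m ∈ GG := by
  have h : mel m * aE ∈ GG := Subgroup.subset_closure ⟨m, (e, 0, 0), by rw [mel_one, mul_one]⟩
  have := GG.mul_mem h aE_mem
  rwa [mul_assoc, aE_mul_self, mul_one] at this

theorem reach_mem {n : ℕ} (h : Reach n) : ∃ y ∈ GG, (y.s : Equiv.Perm ℕ) 0 = n := by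
  induction h with
  | zero => exact ⟨1, GG.one_mem, rfl⟩
  | flip _ ih =>
    obtain ⟨y, hy, h⟩ := ih
    exact ⟨aE * y, GG.mul_mem aE_mem hy, by rw [← h]; rfl⟩
  | act k _ ih =>
    obtain ⟨y, hy, h⟩ := ih
    exact ⟨mel (k, 0, 0) * y, GG.mul_mem (mel_mem _) hy, by rw [← h]; rfl⟩

theorem infinite_GG : (GG : Set Hs).Infinite := by
  intro hfin
  have h1 := hfin.image (fun y : Hs => (y.s : Equiv.Perm ℕ) 0)
  apply Set.infinite_univ (α := ℕ)
  refine h1.subset ?_
  intro n _
  obtain ⟨y, hy, h⟩ := reach_mem (reach_all n)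
  exact ⟨y, hy, h⟩

theorem finite_ball (R : ℕ) : {y | y ∈ GG ∧ len y < R}.Finite := by
  refine ((Set.finite_lt_nat R).biUnion (t := fun n => {y | Sn n y})
    (fun n _ => finite_Sn n)).subset ?_
  rintro y ⟨hy, h⟩
  exact Set.mem_biUnion (x := len y) h (Sn_len hy)

theorem z_mem (m : ℕ) : zc (Finsupp.single m 1) ∈ GG := by
  obtain ⟨R, hR⟩ := absorb m
  have : ∃ y ∈ GG, R ≤ len y := by
    by_contra hcon
    push Not at hcon
    exact infinite_GG ((finite_ball R).subset (fun y hy => ⟨hy, hcon y hy⟩))
  obtain ⟨y, hy, h⟩ := this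
  have h1 := mem_GG_of_Sn (hR y hy h)
  have := GG.mul_mem h1 (GG.inv_mem hy)
  rwa [mul_inv_cancel_right] at this

theorem z_inj {m n : ℕ} (h : zc (Finsupp.single m 1) = zc (Finsupp.single n 1)) : m = n := by
  have h1 : (Finsupp.single m 1 : V) = Finsupp.single n 1 := congrArg Hs.z h
  rw [Finsupp.single_eq_single_iff] at h1
  rcases h1 with h1 | h1
  · exact h1.1
  · exact absurd h1.1 (by decide)

/-- For almost all `y`, multiplication by `z_m` does not change the length. -/
theorem almost_all (m : ℕ) :
    {y | y ∈ GG ∧ len (zc (Finsupp.single m 1) * y) ≠ len y}.Finite := by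
  obtain ⟨R, hR⟩ := absorb m
  have hz := z_mem m
  have F1 := finite_ball R
  have F2 := F1.image (fun y => zc (Finsupp.single m 1) * y)
  refine (F1.union F2).subset ?_
  rintro y ⟨hy, hne⟩
  by_contra hcon
  rw [Set.mem_union, not_or] at hcon
  obtain ⟨c1, c2⟩ := hcon
  have hzz : zc (Finsupp.single m 1) * (zc (Finsupp.single m 1) * y) = y := by
    rw [← mul_assoc, zc_mul_mem_iff, one_mul]
  have hzy : zc (Finsupp.single m 1) * y ∈ GG := GG.mul_mem hz hy
  have d1 : R ≤ len y := by
    by_contra h; exact c1 ⟨hy, by omega⟩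
  have d2 : R ≤ len (zc (Finsupp.single m 1) * y) := by
    by_contra h
    exact c2 ⟨_, ⟨hzy, by omega⟩, hzz⟩
  have e1 := len_le (hR y hy d1)
  have e2 := len_le (hR _ hzy d2)
  rw [hzz] at e2
  omega

end Pool.Agent.H11.Ann
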